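import Pool.Agent.MP_db5b97_nt.H85.Spec2

/-! Inclusions and Galois actions: orders, invariants, Hilbert 90. -/

namespace Pool.Agent.MP_db5b97_nt.H85

open NumberField IsDedekindDomain WithZero
open scoped Pointwise

namespace NT2

section Inc

variable (k F : Type) [Field k] [NumberField k] [Field F] [NumberField F] [Algebra k F]

variable {F} in
theorem val_inc (w : Sp F) (x : k) : w.valuation F (algebraMap k F x) =
    (und k w).valuation k x ^ w.asIdeal.ramificationIdx (𝓞 k) := by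
  have : w.asIdeal.LiesOver (und k w).asIdeal := ⟨rfl⟩
  have := w.isPrime
  rw [← HeightOneSpectrum.valuation_liesOver F (und k w) w x,
    Ideal.ramificationIdx'_eq_ramificationIdx _ _ (und k w).ne_bot]

variable {F} in
theorem ram_ne (w : Sp F) : w.asIdeal.ramificationIdx (𝓞 k) ≠ 0 :=
  have := w.isPrime
  (w.asIdeal.ramificationIdx_pos (𝓞 k)).ne'

theorem ord_inc (w : Sp F) (x : Un k) :
    ord w (Un.inc k F x) = w.asIdeal.ramificationIdx (𝓞 k) * ord (und k w) x := by
  rw [ord_apply, ord_apply, Un.val_inc, val_inc, log_pow, nsmul_eq_mul, mul_neg]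

theorem und_surj (v : Sp k) : ∃ w : Sp F, und k w = v := by
  have := v.isMaximal
  obtain ⟨Q, hQ, h⟩ := Ideal.exists_maximal_ideal_liesOver_of_isIntegral (S := 𝓞 F) v.asIdeal
  exact ⟨⟨Q, hQ.isPrime, Ideal.ne_bot_of_liesOver_of_ne_bot v.ne_bot Q⟩,
    HeightOneSpectrum.ext h.over.symm⟩

variable {F} in
theorem nat_mem (l : ℕ) (w : Sp F) : (l : 𝓞 k) ∈ (und k w).asIdeal ↔ (l : 𝓞 F) ∈ w.asIdeal := by
  simp [und, Ideal.mem_comap]

theorem inc_Ray (l M : ℕ) (x : Un k) : Un.inc k F x ∈ Ray F l M ↔ x ∈ Ray k l M := by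
  have h1 : ∀ w : Sp F, w.valuation F (Un.inc k F x).val = 1 ↔
      (und k w).valuation k x.val = 1 := fun w => by
    rw [Un.val_inc, val_inc, pow_eq_one_iff_of_nonneg zero_le (ram_ne k w)]
  have h2 : ∀ w : Sp F, w.valuation F ((Un.inc k F x).val - 1) ≤ w.valuation F (l : F) ^ M ↔
      (und k w).valuation k (x.val - 1) ≤ (und k w).valuation k (l : k) ^ M := fun w => by
    rw [Un.val_inc, ← map_one (algebraMap k F), ← map_sub, ← map_natCast (algebraMap k F), val_inc,
      val_inc, ← pow_mul, mul_comm, pow_mul, pow_le_pow_iff_left₀ zero_le zero_le (ram_ne k w)]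
  rw [mem_Ray, mem_Ray, mem_Ru, mem_Ru]
  refine ⟨fun h => ⟨fun v hv => ?_, fun v hv => ?_⟩, fun h =>
    ⟨fun w hw => (h1 w).2 (h.1 _ ((nat_mem k l w).2 hw)),
      fun w hw => (h2 w).2 (h.2 _ ((nat_mem k l w).2 hw))⟩⟩
  · obtain ⟨w, rfl⟩ := und_surj k F v
    exact (h1 w).1 (h.1 w ((nat_mem k l w).1 hv))
  · obtain ⟨w, rfl⟩ := und_surj k F v
    exact (h2 w).1 (h.2 w ((nat_mem k l w).1 hv))

end Inc

theorem ord_smul (F G : Type) [Field F] [NumberField F] [Group G] [MulSemiringAction G F] (s : G)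
    (w : Sp F) (x : Un F) : ord (s • w) (s • x) = ord w x := by
  have h : ∀ (a : 𝓞 F) (ha : a ≠ 0), ord (s • w) (s • mkI a ha) = ord w (mkI a ha) := by
    intro a ha
    have e : s • mkI a ha = mkI (s • a) (by simpa [smul_eq_zero_iff_eq] using ha) := Un.ext rfl
    rw [e, ord_mkI, ord_mkI, ← multiplicity_map_eq
      (MulSemiringAction.toRingEquiv G (Ideal (𝓞 F)) s) (a := w.asIdeal)]
    congr 2
    rw [MulSemiringAction.toRingEquiv_apply_apply, Ideal.smul_closure, Set.smul_set_singleton]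
  obtain ⟨a, ha, b, hb, rfl⟩ := exists_mkI x
  rw [smul_sub, map_sub, map_sub, h, h]

theorem pm_apply {G X : Type} [Group G] [MulAction G X] (s : G) (D : X →₀ ℤ) (a : X) :
    (s • D) a = D (s⁻¹ • a) := Finsupp.comapSMul_apply s D a

section Gal

theorem inc_range (k F G : Type) [Field k] [Field F] [Algebra k F] [Group G]
    [MulSemiringAction G F] [IsGaloisGroup G k F] (x : Un F) :
    x ∈ (Un.inc k F).range ↔ ∀ s : G, s • x = x := by
  constructor
  · rintro ⟨y, rfl⟩ s
    exact Un.ext (smul_algebraMap s y.val)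
  · intro h
    obtain ⟨y, hy⟩ := Algebra.IsInvariant.isInvariant (A := k) (G := G) x.val
      fun s => congrArg Un.val (h s)
    exact ⟨Un.mk y fun h0 => x.val_ne (by rw [← hy, h0, map_zero]), Un.ext hy⟩

variable (k F G : Type) [Field k] [NumberField k] [Field F] [NumberField F] [Algebra k F]
  [Group G] [MulSemiringAction G F] [IsGaloisGroup G k F]

theorem con_range (l : ℕ) (D : Dv F l) : D ∈ (con k F l).range ↔ ∀ s : G, s • D = D := by
  have := IsGaloisGroup.finite G k F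
  constructor
  · rintro ⟨E, rfl⟩ s
    ext w
    rw [pm_apply, con_apply, con_apply]
    congr 1
    exact Subtype.ext (HeightOneSpectrum.ext (Ideal.under_smul (𝓞 k) w.1.asIdeal s⁻¹))
  · intro h
    have hs : ∀ v : Pr k l, ∃ w : Pr F l, w.und k = v := fun v => by
      obtain ⟨w, hw⟩ := und_surj k F v.1
      exact ⟨⟨w, fun h => v.2 (hw ▸ (nat_mem k l w).2 h)⟩, Subtype.ext hw⟩
    choose t ht using hs
    refine ⟨D.comapDomain t (Function.LeftInverse.injective ht).injOn, ?_⟩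
    ext w
    rw [con_apply, Finsupp.comapDomain_apply]
    have h1 := w.1.isPrime
    have h2 := (t (w.und k)).1.isPrime
    obtain ⟨s, hs⟩ := Algebra.IsInvariant.exists_smul_of_under_eq (𝓞 k) (𝓞 F) G w.1.asIdeal
      (t (w.und k)).1.asIdeal (congrArg (fun v : Pr k l => v.1.asIdeal) (ht (w.und k))).symm
    have e : t (w.und k) = s • w := Subtype.ext (HeightOneSpectrum.ext hs)
    rw [e, ← h s, pm_apply, inv_smul_smul, h s]

theorem inc_nrm (σ : G) (p : ℕ) (hp : p.Prime) (hG : Nat.card G = p) (hσ : σ ≠ 1) (x : Un F) :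
    Un.inc k F (Un.nrm k F x) = Nm σ p x := by
  classical
  have := IsGaloisGroup.finite G k F
  have := Fintype.ofFinite G
  have := IsGaloisGroup.isGalois G k F
  have := Fact.mk hp
  have ho : orderOf σ = p := orderOf_eq_prime (hG ▸ pow_card_eq_one') hσ
  ext
  rw [Un.val_inc, Un.val_nrm, Algebra.norm_eq_prod_automorphisms, Nm_apply, Un.val_sum,
    ← (IsGaloisGroup.mulEquivAlgEquiv G k F).toEquiv.prod_comp]
  refine (Finset.prod_nbij (fun i => σ ^ i) (fun _ _ => Finset.mem_univ _) ?_ ?_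
    fun _ _ => rfl).symm
  · rw [Finset.coe_range, ← ho]
    exact pow_injOn_Iio_orderOf
  · intro g _
    have := (isOfFinOrder_of_finite σ).mem_powers_iff_mem_range_orderOf.1
      (mem_powers_of_prime_card hG hσ (g' := g))
    rwa [ho, ← Finset.mem_coe, Finset.coe_image] at this

theorem unr (l : ℕ)
    (h : ∀ s : G, s ≠ 1 → ∀ w : Pr F l, ∃ θ : 𝓞 F, s • θ - θ ∉ w.1.asIdeal) : Unr k F l := by
  intro w
  have := IsGaloisGroup.finite G k F
  have : w.1.asIdeal.LiesOver (und k w.1).asIdeal := ⟨rfl⟩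
  have := w.1.isPrime
  have := (und k w.1).isMaximal
  have : Finite (𝓞 k ⧸ (und k w.1).asIdeal) :=
    Ideal.finiteQuotientOfFreeOfNeBot _ (und k w.1).ne_bot
  rw [← Ideal.ramificationIdxIn_eq_ramificationIdx (und k w.1).asIdeal w.1.asIdeal G,
    ← Ideal.card_inertia_eq_ramificationIdxIn (G := G) (und k w.1).asIdeal w.1.asIdeal,
    Subgroup.card_eq_one, eq_bot_iff]
  intro s hs
  by_contra h1
  obtain ⟨θ, hθ⟩ := h s h1 w
  exact hθ (hs θ)

end Gal

theorem ded {ι K F : Type} [Fintype ι] [Monoid K] [Field F] (φ : ι → K →* F)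
    (hφ : Function.Injective φ) (c : ι → F) (i : ι) (hc : c i ≠ 0) :
    ∃ t, ∑ j, c j * φ j t ≠ 0 := by
  by_contra h
  push Not at h
  refine hc (Fintype.linearIndependent_iff.1 ((linearIndependent_monoidHom K F).comp φ hφ) c ?_ i)
  funext t
  simpa using h t

theorem h90 (F G : Type) [Field F] [Group G] [Finite G] [MulSemiringAction G F] [FaithfulSMul G F]
    (Q : Subgroup G) : H90 (Un F) Q := by
  intro c hc
  have := Fintype.ofFinite Q
  obtain ⟨t, ht⟩ := ded (fun s : Q => (MulSemiringAction.toRingHom G F s).toMonoidHom)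
    (fun s s' h => Subtype.ext (eq_of_smul_eq_smul (α := F) fun x => DFunLike.congr_fun h x))
    (fun s => (c s).val) 1 (Un.val_ne _)
  change ∑ j : Q, (c j).val * (j : G) • t ≠ 0 at ht
  refine ⟨-Un.mk _ ht, fun r hr => Un.ext ?_⟩
  have e : (c r).val * r • ∑ j : Q, (c j).val * (j : G) • t = ∑ j : Q, (c j).val * (j : G) • t := by
    rw [Finset.smul_sum, Finset.mul_sum]
    refine Fintype.sum_equiv (Equiv.mulLeft (⟨r, hr⟩ : Q)) _ _ fun s => ?_
    simp only [Equiv.coe_mulLeft, Subgroup.coe_mul, hc r hr s s.2, Un.val_add, Un.val_smul,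
      smul_mul', mul_smul, mul_assoc]
  have h0 : r • ∑ j : Q, (c j).val * (j : G) • t ≠ 0 := by simpa [smul_eq_zero_iff_eq] using ht
  rw [smul_neg, neg_sub_neg, Un.val_sub, Un.val_smul, Un.val_mk, eq_div_iff h0, e]

theorem fix_pow {G A : Type} [Group G] [MulAction G A] {Q : Subgroup G} {σ : G}
    (hσ : σ ∈ Subgroup.normalizer (Q : Set G)) {x : A} (hx : ∀ s ∈ Q, s • x = x) (i : ℕ) :
    ∀ s ∈ Q, s • σ ^ i • x = σ ^ i • x := fun s hs => by
  have := hx _ ((Subgroup.mem_normalizer_iff''.1 (pow_mem hσ i) s).1 hs)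
  rwa [mul_smul, mul_smul, inv_smul_eq_iff] at this

section Nm

variable {G A : Type} [Group G] [AddCommGroup A] [DistribMulAction G A]

theorem Nm_succ (σ : G) (i : ℕ) (x : A) : Nm σ (i + 1) x = σ • Nm σ i x + x := by
  simp only [Nm_apply, Finset.sum_range_succ', Finset.smul_sum, pow_succ', mul_smul, pow_zero,
    one_smul]

theorem Nm_fix {Q : Subgroup G} {σ : G} (hσ : σ ∈ Subgroup.normalizer (Q : Set G)) {x : A}
    (hx : x ∈ Fix A Q) (i : ℕ) : Nm σ i x ∈ Fix A Q := by
  rw [Nm_apply]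
  exact sum_mem fun j _ => fix_pow hσ hx j

end Nm

theorem h1u (F G : Type) [Field F] [Group G] [Finite G] [MulSemiringAction G F] [FaithfulSMul G F]
    (p : ℕ) (Q : Subgroup G) (σ : G) (hp : p.Prime) (hσ : σ ∈ Subgroup.normalizer (Q : Set G))
    (h1 : σ ^ p ∈ Q) (h2 : σ ∉ Q) : H1z (Un F) p Q σ := by
  intro x hx h0
  let K : IntermediateField (FixedPoints.subfield G F) F := FixedPoints.intermediateField Q
  have hK : ∀ t : K, ∀ s ∈ Q, s • (t : F) = t := fun t s hs => t.2 ⟨s, hs⟩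
  have aux : ∀ i j : ℕ, i < j → j < p → ¬∀ t : K, σ ^ i • (t : F) = σ ^ j • (t : F) := by
    intro i j hij hj h
    obtain ⟨d, rfl⟩ := Nat.exists_eq_add_of_lt hij
    have h3 : σ ^ (d + 1) ∈ Q := by
      rw [← IsGaloisGroup.fixingSubgroup_fixedPoints G (FixedPoints.subfield G F) F Q,
        mem_fixingSubgroup_iff]
      intro t ht
      have := h ⟨t, ht⟩
      rw [add_assoc, pow_add, mul_smul, smul_left_cancel_iff] at this
      exact this.symm
    obtain ⟨a, b, e⟩ := Nat.isCoprime_iff_coprime.2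
      (Nat.coprime_of_lt_prime d.succ_ne_zero (by omega) hp)
    refine h2 ?_
    rw [← zpow_one σ, ← e, zpow_add, mul_comm a, mul_comm b, zpow_mul, zpow_mul, zpow_natCast,
      zpow_natCast]
    exact mul_mem (zpow_mem h1 _) (zpow_mem h3 _)
  obtain ⟨t, ht⟩ := ded (fun i : Fin p => (MulSemiringAction.toRingHom G F (σ ^ (i : ℕ))).toMonoidHom.comp
      K.val.toRingHom.toMonoidHom)
    (fun i j h => by
      rcases lt_trichotomy i j with h3 | h3 | h3
      · exact absurd (fun t => DFunLike.congr_fun h t) (aux i j h3 j.2)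
      · exact h3
      · exact absurd (fun t => (DFunLike.congr_fun h t).symm) (aux j i h3 i.2))
    (fun i => (Nm σ i x).val) ⟨0, hp.pos⟩ (Un.val_ne _)
  change ∑ j : Fin p, (fun j : ℕ => (Nm σ j x).val * σ ^ j • (t : F)) j ≠ 0 at ht
  rw [← Finset.sum_range fun j : ℕ => (Nm σ j x).val * σ ^ j • (t : F)] at ht
  refine ⟨-Un.mk _ ht, neg_mem fun s hs => Un.ext ?_, Un.ext ?_⟩
  · rw [Un.val_smul, Un.val_mk, Finset.smul_sum]
    refine Finset.sum_congr rfl fun i _ => ?_
    rw [smul_mul', fix_pow hσ (hK t) i s hs, ← Un.val_smul, Nm_fix hσ hx i s hs]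
  · have e : x.val * σ • ∑ j ∈ Finset.range p, (Nm σ j x).val * σ ^ j • (t : F) =
        ∑ j ∈ Finset.range p, (Nm σ j x).val * σ ^ j • (t : F) := by
      have h3 := Finset.sum_range_succ (fun j => (Nm σ j x).val * σ ^ j • (t : F)) p
      rw [Finset.sum_range_succ', h0, hK t _ h1] at h3
      simp only [Nm_apply σ 0, Finset.range_zero, Finset.sum_empty, pow_zero, one_smul,
        add_left_inj] at h3
      rw [Finset.smul_sum, Finset.mul_sum, ← h3]
      refine Finset.sum_congr rfl fun i _ => ?_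
      rw [Nm_succ, Un.val_add, Un.val_smul, smul_mul', pow_succ', mul_smul]
      ring
    have h4 : σ • ∑ j ∈ Finset.range p, (Nm σ j x).val * σ ^ j • (t : F) ≠ 0 := by
      simpa [smul_eq_zero_iff_eq] using ht
    rw [smul_neg, neg_sub_neg, Un.val_sub, Un.val_smul, Un.val_mk, eq_div_iff h4, e]

theorem h1p (X G : Type) [Group G] [MulAction G X] (p : ℕ) (Q : Subgroup G) (σ : G) (hp : 0 < p)
    (hσ : σ ∈ Subgroup.normalizer (Q : Set G)) : H1z (X →₀ ℤ) p Q σ := by
  intro D hD h0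
  obtain ⟨E, hE⟩ : ∃ E, E = -∑ i ∈ Finset.range p, Nm σ i D := ⟨_, rfl⟩
  have h1 : E ∈ Fix (X →₀ ℤ) Q := hE ▸ neg_mem (sum_mem fun i _ => Nm_fix hσ hD i)
  have h2 : σ • E = E + p • D := by
    have h3 := Finset.sum_range_sub (fun i => Nm σ i D) p
    simp only [Nm_succ, h0, Nm_apply σ 0, Finset.range_zero, Finset.sum_empty, sub_zero,
      Finset.sum_sub_distrib, Finset.sum_add_distrib, Finset.sum_const, Finset.card_range] at h3
    rw [hE, smul_neg, Finset.smul_sum]
    linear_combination (norm := abel1) -h3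
  refine ⟨E.mapRange (· / (p : ℤ)) (by simp), fun s hs => ?_, ?_⟩
  · ext a
    rw [pm_apply, Finsupp.mapRange_apply, Finsupp.mapRange_apply, ← pm_apply, h1 s hs]
  · ext a
    rw [Finsupp.sub_apply, pm_apply, Finsupp.mapRange_apply, Finsupp.mapRange_apply, ← pm_apply, h2,
      Finsupp.add_apply, Finsupp.nsmul_apply, nsmul_eq_mul,
      Int.add_mul_ediv_left _ _ (by exact_mod_cast hp.ne'), add_sub_cancel_left]

end NT2

theorem rowNT2 : RowNT2 :=
  ⟨NT2.ord_inc, NT2.inc_Ray, NT2.ord_smul, NT2.con_range, NT2.inc_range, NT2.inc_nrm, NT2.h90,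
    NT2.h1u, fun X G _ _ p Q σ hp hσ _ => NT2.h1p X G p Q σ hp hσ, NT2.unr⟩

end Pool.Agent.MP_db5b97_nt.H85
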